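import Mathlib

set_option autoImplicit false

namespace Pool.Agent.Lib.MP_d66af2_al

open Subgroup

section Conj

variable {G : Type*} [Group G]

/-- Finitely many conjugacy classes pass to surjective images. -/
theorem finite_conj_of_surj {H : Type*} [Group H] (f : G →* H) (hf : Function.Surjective f)
    [Finite (ConjClasses G)] : Finite (ConjClasses H) :=
  Finite.of_surjective (ConjClasses.map f) (ConjClasses.map_surjective hf)

/-- Finitely many conjugacy classes pass to subgroups of finite index. -/
theorem finite_conj_of_finiteIndex (H : Subgroup G) [H.FiniteIndex]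
    [Finite (ConjClasses G)] : Finite (ConjClasses H) := by
  classical
  have hrep : ∀ h : H, ∃ t : G, t * (Quotient.out (ConjClasses.mk (h : G))) * t⁻¹ = h := by
    intro h
    have h1 : ConjClasses.mk (Quotient.out (ConjClasses.mk (h : G)))
        = ConjClasses.mk (h : G) := Quotient.out_eq _
    rw [ConjClasses.mk_eq_mk_iff_isConj, isConj_iff] at h1
    exact h1
  choose t ht using hrep
  let φ : H → ConjClasses G × (G ⧸ H) :=
    fun h => (ConjClasses.mk (h : G), QuotientGroup.mk (t h)⁻¹)
  have hφ : ∀ h h' : H, φ h = φ h' → IsConj h h' := by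
    intro h h' e
    have e1 : ConjClasses.mk (h : G) = ConjClasses.mk (h' : G) := congrArg Prod.fst e
    have e2 : (QuotientGroup.mk (t h)⁻¹ : G ⧸ H) = QuotientGroup.mk (t h')⁻¹ :=
      congrArg Prod.snd e
    rw [QuotientGroup.eq] at e2
    rw [inv_inv] at e2
    rw [isConj_iff]
    refine ⟨(⟨t h * (t h')⁻¹, e2⟩ : H)⁻¹, ?_⟩
    apply Subtype.ext
    have h1 := ht h
    have h2 := ht h'
    rw [← e1] at h2
    simp only [Subgroup.coe_mul, Subgroup.coe_inv]
    generalize Quotient.out (ConjClasses.mk (h : G)) = r at h1 h2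
    rw [← h2, ← h1]
    group
  have : Finite (G ⧸ H) := inferInstance
  refine Finite.of_injective (fun c : ConjClasses H => φ (Quotient.out c)) ?_
  intro c d hcd
  have h1 := hφ _ _ hcd
  rw [← ConjClasses.mk_eq_mk_iff_isConj] at h1
  have h2 : ConjClasses.mk (Quotient.out c) = c := Quotient.out_eq _
  have h3 : ConjClasses.mk (Quotient.out d) = d := Quotient.out_eq _
  rw [h2, h3] at h1
  exact h1

/-- A group with finitely many conjugacy classes has finitely many normal subgroups. -/
theorem finite_normal [Finite (ConjClasses G)] : Finite {N : Subgroup G // N.Normal} := by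
  refine Finite.of_injective
    (fun N : {N : Subgroup G // N.Normal} => ConjClasses.mk '' (N.1 : Set G)) ?_
  rintro ⟨N, hN⟩ ⟨L, hL⟩ h
  simp only at h
  have key : ∀ (A B : Subgroup G), B.Normal →
      ConjClasses.mk '' (A : Set G) = ConjClasses.mk '' (B : Set G) → A ≤ B := by
    intro A B hB hAB x hx
    have : ConjClasses.mk x ∈ ConjClasses.mk '' (B : Set G) := by
      rw [← hAB]; exact ⟨x, hx, rfl⟩
    obtain ⟨y, hy, hyx⟩ := this
    rw [ConjClasses.mk_eq_mk_iff_isConj, isConj_iff] at hyx
    obtain ⟨c, rfl⟩ := hyx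
    exact hB.conj_mem y hy c
  exact Subtype.ext (le_antisymm (key N L hL h) (key L N hN h.symm))

/-- In a group with finitely many conjugacy classes every normal subgroup is the normal closure
of a finite set. -/
theorem normal_finitelyNormallyGenerated [Finite (ConjClasses G)] (N : Subgroup G) [N.Normal] :
    N.IsFinitelyNormallyGenerated := by
  refine ⟨Set.range (fun c : ConjClasses G => Quotient.out c) ∩ N,
    (Set.finite_range _).inter_of_left _, ?_⟩
  apply le_antisymm
  · exact normalClosure_le_normal Set.inter_subset_right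
  · intro x hx
    have h1 : ConjClasses.mk (Quotient.out (ConjClasses.mk x)) = ConjClasses.mk x :=
      Quotient.out_eq _
    rw [ConjClasses.mk_eq_mk_iff_isConj, isConj_iff] at h1
    obtain ⟨c, hc⟩ := h1
    have h2 : Quotient.out (ConjClasses.mk x) ∈ N := by
      have : Quotient.out (ConjClasses.mk x) = c⁻¹ * x * (c⁻¹)⁻¹ := by
        generalize Quotient.out (ConjClasses.mk x) = r at hc
        rw [← hc]; group
      rw [this]
      exact ‹N.Normal›.conj_mem x hx c⁻¹
    have h3 : Quotient.out (ConjClasses.mk x) ∈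
        normalClosure (Set.range (fun c : ConjClasses G => Quotient.out c) ∩ N) :=
      subset_normalClosure ⟨⟨_, rfl⟩, h2⟩
    have h4 := (normalClosure_normal).conj_mem _ h3 c
    rwa [hc] at h4

/-- Pigeonhole: any element has two powers `g ^ i`, `g ^ j` with `1 ≤ i < j ≤ k + 1` which are
conjugate, `k` the number of conjugacy classes. -/
theorem exists_isConj_pow [Finite (ConjClasses G)] (g : G) :
    ∃ i j : ℕ, 1 ≤ i ∧ i < j ∧ j ≤ Nat.card (ConjClasses G) + 1 ∧ IsConj (g ^ i) (g ^ j) := by
  classical
  have := Fintype.ofFinite (ConjClasses G)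
  obtain ⟨a, b, hab, h⟩ := Fintype.exists_ne_map_eq_of_card_lt
    (fun i : Fin (Nat.card (ConjClasses G) + 1) => ConjClasses.mk (g ^ ((i : ℕ) + 1)))
    (by rw [Fintype.card_fin, Nat.card_eq_fintype_card]; exact Nat.lt_succ_self _)
  simp only [ConjClasses.mk_eq_mk_iff_isConj] at h
  have hne : (a : ℕ) ≠ b := fun e => hab (Fin.ext e)
  have ha := a.2
  have hb := b.2
  rcases lt_or_gt_of_ne hne with h1 | h1
  · exact ⟨a + 1, b + 1, by omega, by omega, by omega, h⟩
  · exact ⟨b + 1, a + 1, by omega, by omega, by omega, h.symm⟩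

end Conj

section FP

/-- A finitely generated free group has finite rank. -/
theorem finite_of_fg_freeGroup (X : Type*) [Group.FG (FreeGroup X)] : Finite X := by
  classical
  obtain ⟨S, hS, hfin⟩ := (Group.fg_iff (G := FreeGroup X)).1 inferInstance
  have : Finite S := hfin
  -- homomorphisms to `Z/2` restrict injectively to `S`
  let ρ : (X → Multiplicative (ZMod 2)) → (S → Multiplicative (ZMod 2)) :=
    fun f s => FreeGroup.lift f (s : FreeGroup X)
  have hρ : Function.Injective ρ := by
    intro f f' h
    have h1 : FreeGroup.lift f = FreeGroup.lift f' := by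
      apply MonoidHom.eq_of_eqOn_dense hS
      intro s hs
      exact congrFun h ⟨s, hs⟩
    exact FreeGroup.lift.injective h1
  have h2 : Finite (X → Multiplicative (ZMod 2)) := Finite.of_injective ρ hρ
  refine Finite.of_injective (fun x : X => (Pi.mulSingle x (Multiplicative.ofAdd (1 : ZMod 2)) :
    X → Multiplicative (ZMod 2))) ?_
  intro x y hxy
  by_contra hne
  have h3 := congrFun hxy x
  simp only [Pi.mulSingle_eq_same, Pi.mulSingle_eq_of_ne hne] at h3
  exact absurd h3 (by decide)

/-- A subgroup of finite index in a free group of finite rank is finitely presented. -/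
theorem fp_of_finiteIndex_free {n : ℕ} (H : Subgroup (FreeGroup (Fin n))) [H.FiniteIndex] :
    Group.IsFinitelyPresented H := by
  have hfg : Group.FG H := inferInstance
  let e := IsFreeGroup.toFreeGroup H
  have : Group.FG (FreeGroup (IsFreeGroup.Generators H)) :=
    Group.fg_of_surjective (f := (e : H →* _)) e.surjective
  have : Finite (IsFreeGroup.Generators H) := finite_of_fg_freeGroup _
  exact Group.IsFinitelyPresented.equiv e.symm

/-- A subgroup of finite index in a finitely presented group is finitely presented. -/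
theorem fp_of_finiteIndex {G : Type*} [Group G] [hG : Group.IsFinitelyPresented G]
    (H : Subgroup G) [H.FiniteIndex] : Group.IsFinitelyPresented H := by
  classical
  obtain ⟨n, φ, hφ, S, hS, hSφ⟩ := hG
  let H' : Subgroup (FreeGroup (Fin n)) := H.comap φ
  have hH' : H'.FiniteIndex :=
    ⟨by rw [index_comap_of_surjective _ hφ]; exact FiniteIndex.index_ne_zero⟩
  have hfp : Group.IsFinitelyPresented H' := fp_of_finiteIndex_free H'
  let ψ : H' →* H := φ.subgroupComap H
  have hψ : Function.Surjective ψ := by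
    rintro ⟨x, hx⟩
    obtain ⟨y, rfl⟩ := hφ x
    exact ⟨⟨y, hx⟩, rfl⟩
  refine Group.IsFinitelyPresented.of_surjective ψ hψ ?_
  -- a finite set of representatives of the cosets of `H'`
  let T : Set (FreeGroup (Fin n)) := Set.range (fun c : FreeGroup (Fin n) ⧸ H' => (Quotient.out c)⁻¹)
  have hT : T.Finite := Set.finite_range _
  have hTrep : ∀ f : FreeGroup (Fin n), ∃ t ∈ T, f * t⁻¹ ∈ H' := by
    intro f
    refine ⟨_, ⟨QuotientGroup.mk f⁻¹, rfl⟩, ?_⟩
    have h1 : (QuotientGroup.mk (Quotient.out (QuotientGroup.mk f⁻¹ : FreeGroup (Fin n) ⧸ H')) :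
      FreeGroup (Fin n) ⧸ H') = QuotientGroup.mk f⁻¹ := Quotient.out_eq _
    have h2 := QuotientGroup.eq.1 h1.symm
    simpa using h2
  let R : Set H' := {x | ∃ t ∈ T, ∃ s ∈ S, (x : FreeGroup (Fin n)) = t * s * t⁻¹}
  have hR : R.Finite := by
    have : (Subtype.val '' R).Finite := by
      apply ((hT.prod hS).image (fun p => p.1 * p.2 * p.1⁻¹)).subset
      rintro _ ⟨x, ⟨t, ht, s, hs, hx⟩, rfl⟩
      exact ⟨(t, s), ⟨ht, hs⟩, hx.symm⟩
    exact Set.Finite.of_finite_image this Subtype.val_injective.injOn
  have hker : ∀ s ∈ S, φ s = 1 := by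
    intro s hs
    have : s ∈ φ.ker := by rw [← hSφ]; exact subset_normalClosure hs
    exact this
  refine ⟨R, hR, ?_⟩
  apply le_antisymm
  · apply normalClosure_le_normal
    rintro x ⟨t, ht, s, hs, hx⟩
    rw [SetLike.mem_coe, MonoidHom.mem_ker]
    apply Subtype.ext
    change φ (x : FreeGroup (Fin n)) = 1
    rw [hx, map_mul, map_mul, hker s hs, map_inv]
    simp
  · intro x hx
    have hx1 : φ (x : FreeGroup (Fin n)) = 1 := congrArg Subtype.val (MonoidHom.mem_ker.1 hx)
    have hx2 : (x : FreeGroup (Fin n)) ∈ normalClosure S := by rw [hSφ]; exact hx1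
    have hle : normalClosure S ≤ (normalClosure R).map H'.subtype := by
      rw [normalClosure, closure_le]
      intro y hy
      rw [Group.mem_conjugatesOfSet_iff] at hy
      obtain ⟨s, hs, hsy⟩ := hy
      rw [isConj_iff] at hsy
      obtain ⟨f, rfl⟩ := hsy
      obtain ⟨t, ht, hft⟩ := hTrep f
      have hmem : t * s * t⁻¹ ∈ H' := by
        change φ (t * s * t⁻¹) ∈ H
        rw [map_mul, map_mul, hker s hs, map_inv]
        simp
      have h1 : (⟨t * s * t⁻¹, hmem⟩ : H') ∈ normalClosure R :=
        subset_normalClosure ⟨t, ht, s, hs, rfl⟩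
      have h2 := (normalClosure_normal (s := R)).conj_mem _ h1 ⟨f * t⁻¹, hft⟩
      refine ⟨_, h2, ?_⟩
      simp only [Subgroup.subtype_apply, Subgroup.coe_mul, Subgroup.coe_inv]
      group
    obtain ⟨y, hy, hyx⟩ := hle hx2
    have : y = x := Subtype.ext hyx
    rwa [← this]

end FP

section Reduction

variable {G : Type*} [Group G]

/-- The intersection of all normal subgroups of finite index. -/
def finRes (G : Type*) [Group G] : Subgroup G :=
  ⨅ N : {N : Subgroup G // N.Normal ∧ N.FiniteIndex}, N.1

instance finRes_normal : (finRes G).Normal :=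
  normal_iInf_normal (fun N => N.2.1)

theorem finRes_finiteIndex [Finite (ConjClasses G)] : (finRes G).FiniteIndex := by
  have := finite_normal (G := G)
  have : Finite {N : Subgroup G // N.Normal ∧ N.FiniteIndex} :=
    Finite.of_injective (fun N => (⟨N.1, N.2.1⟩ : {N : Subgroup G // N.Normal}))
      (fun a b h => Subtype.ext (congrArg (fun z => z.1) h))
  exact finiteIndex_iInf (fun N => N.2.2)

theorem finRes_le (N : Subgroup G) (h1 : N.Normal) (h2 : N.FiniteIndex) : finRes G ≤ N :=
  iInf_le (fun N : {N : Subgroup G // N.Normal ∧ N.FiniteIndex} => N.1) ⟨N, h1, h2⟩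

/-- `finRes G` has no proper subgroup of finite index. -/
theorem finRes_no_finiteIndex [Finite (ConjClasses G)] (L : Subgroup (finRes G))
    (hL : L.FiniteIndex) : L = ⊤ := by
  have h0 := finRes_finiteIndex (G := G)
  have h1 : (L.map (finRes G).subtype).FiniteIndex := by
    constructor
    rw [index_map_subtype]
    exact mul_ne_zero hL.index_ne_zero h0.index_ne_zero
  have h2 := finRes_le (L.map (finRes G).subtype).normalCore (normalCore_normal _)
    inferInstance
  rw [eq_top_iff]
  intro x _
  have h3 : (x : G) ∈ L.map (finRes G).subtype := normalCore_le _ (h2 x.2)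
  obtain ⟨y, hy, hyx⟩ := h3
  have : y = x := Subtype.ext hyx
  rwa [← this]

/-- In a nontrivial group with finitely many conjugacy classes there is a maximal proper normal
subgroup, with simple quotient. -/
theorem exists_simple_quotient [Finite (ConjClasses G)] [Nontrivial G] :
    ∃ K : Subgroup G, ∃ _ : K.Normal, K ≠ ⊤ ∧ IsSimpleGroup (G ⧸ K) := by
  have hfin := finite_normal (G := G)
  let P : Set (Subgroup G) := {N | N.Normal ∧ N ≠ ⊤}
  have hP : P.Finite := by
    have h1 : (Set.range (Subtype.val : {N : Subgroup G // N.Normal} → Subgroup G)).Finite :=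
      Set.finite_range _
    exact h1.subset (fun N hN => ⟨⟨N, hN.1⟩, rfl⟩)
  have hne : P.Nonempty := ⟨⊥, inferInstance, bot_ne_top⟩
  obtain ⟨K, hK⟩ := hP.exists_maximal hne
  have hKn : K.Normal := hK.prop.1
  have hKt : K ≠ ⊤ := hK.prop.2
  refine ⟨K, hKn, hKt, ?_⟩
  have hnt : Nontrivial (G ⧸ K) := QuotientGroup.nontrivial_iff.2 hKt
  refine ⟨fun N hN => ?_⟩
  have h1 : (N.comap (QuotientGroup.mk' K)).Normal := inferInstance
  have h2 : K ≤ N.comap (QuotientGroup.mk' K) := by
    intro x hx
    have : QuotientGroup.mk' K x = 1 := (QuotientGroup.eq_one_iff x).2 hx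
    rw [mem_comap, this]
    exact one_mem _
  by_cases h3 : N.comap (QuotientGroup.mk' K) = ⊤
  · right
    rw [eq_top_iff]
    intro x _
    obtain ⟨y, rfl⟩ := QuotientGroup.mk'_surjective K x
    have : y ∈ N.comap (QuotientGroup.mk' K) := by rw [h3]; trivial
    exact this
  · left
    have h4 := hK.le_of_ge ⟨h1, h3⟩ h2
    rw [eq_bot_iff]
    intro x hx
    obtain ⟨y, rfl⟩ := QuotientGroup.mk'_surjective K x
    exact (QuotientGroup.eq_one_iff y).2 (h4 hx)

end Reduction

section Uniform

variable {S : Type*} [Group S]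

/-- `h` is a product of at most `N` conjugates of `g` and of `g⁻¹`. -/
def ProdConj (N : ℕ) (g h : S) : Prop :=
  ∃ l : List S, l.length ≤ N ∧ (∀ x ∈ l, IsConj g x ∨ IsConj g⁻¹ x) ∧ l.prod = h

theorem ProdConj.mono {N M : ℕ} (hNM : N ≤ M) {g h : S} (H : ProdConj N g h) :
    ProdConj M g h := by
  obtain ⟨l, h1, h2, h3⟩ := H
  exact ⟨l, h1.trans hNM, h2, h3⟩

theorem ProdConj.conj {N : ℕ} {g h g' h' : S} (H : ProdConj N g h) (hg : IsConj g g')
    (hh : IsConj h h') : ProdConj N g' h' := by
  obtain ⟨l, h1, h2, h3⟩ := H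
  rw [isConj_iff] at hh
  obtain ⟨c, rfl⟩ := hh
  have hg' : IsConj g⁻¹ g'⁻¹ := by
    rw [isConj_iff] at hg ⊢
    obtain ⟨d, rfl⟩ := hg
    exact ⟨d, by group⟩
  refine ⟨l.map (MulAut.conj c), by simpa using h1, ?_, ?_⟩
  · intro x hx
    rw [List.mem_map] at hx
    obtain ⟨y, hy, rfl⟩ := hx
    have hyc : IsConj y (MulAut.conj c y) := isConj_iff.2 ⟨c, rfl⟩
    rcases h2 y hy with h | h
    · exact Or.inl ((hg.symm.trans h).trans hyc)
    · exact Or.inr ((hg'.symm.trans h).trans hyc)
  · rw [← map_list_prod, h3]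
    rfl

theorem exists_list_of_mem_closure' {s : Set S} {x : S} (hx : x ∈ closure s) :
    ∃ l : List S, (∀ y ∈ l, y ∈ s ∨ y⁻¹ ∈ s) ∧ l.prod = x := by
  induction hx using closure_induction with
  | mem x hx => exact ⟨[x], by simpa using Or.inl hx, by simp⟩
  | one => exact ⟨[], by simp, by simp⟩
  | mul x y _ _ hx hy =>
    obtain ⟨l, h1, h2⟩ := hx
    obtain ⟨l', h3, h4⟩ := hy
    refine ⟨l ++ l', ?_, by rw [List.prod_append, h2, h4]⟩
    intro z hz
    rcases List.mem_append.1 hz with h | h
    · exact h1 z h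
    · exact h3 z h
  | inv x _ hx =>
    obtain ⟨l, h1, h2⟩ := hx
    refine ⟨(l.map (fun z => z⁻¹)).reverse, ?_, by rw [← h2, List.prod_inv_reverse]⟩
    intro z hz
    rw [List.mem_reverse, List.mem_map] at hz
    obtain ⟨w, hw, rfl⟩ := hz
    rw [inv_inv]
    exact (h1 w hw).symm

/-- In a simple group each element is a product of conjugates of `g ^ ±1`, for each `g ≠ 1`. -/
theorem exists_prodConj [IsSimpleGroup S] (g h : S) (hg : g ≠ 1) : ∃ N, ProdConj N g h := by
  have h1 : normalClosure ({g} : Set S) = ⊤ := by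
    rcases IsSimpleGroup.eq_bot_or_eq_top_of_normal _ (normalClosure_normal (s := ({g} : Set S)))
      with h | h
    · exfalso
      have : g ∈ normalClosure ({g} : Set S) := subset_normalClosure rfl
      rw [h] at this
      exact hg this
    · exact h
  have h2 : h ∈ normalClosure ({g} : Set S) := by rw [h1]; trivial
  rw [normalClosure] at h2
  obtain ⟨l, hl, hprod⟩ := exists_list_of_mem_closure' h2
  refine ⟨l.length, l, le_rfl, ?_, hprod⟩
  intro x hx
  rcases hl x hx with h3 | h3
  · rw [Group.mem_conjugatesOfSet_iff] at h3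
    obtain ⟨a, ha, hax⟩ := h3
    rw [Set.mem_singleton_iff] at ha
    subst ha
    exact Or.inl hax
  · rw [Group.mem_conjugatesOfSet_iff] at h3
    obtain ⟨a, ha, hax⟩ := h3
    rw [Set.mem_singleton_iff] at ha
    subst ha
    right
    rw [isConj_iff] at hax ⊢
    obtain ⟨c, hc⟩ := hax
    exact ⟨c, by rw [← inv_inv x, ← hc]; group⟩

/-- A simple group with finitely many conjugacy classes is uniformly simple. -/
theorem uniformlySimple [IsSimpleGroup S] [Finite (ConjClasses S)] :
    ∃ N : ℕ, ∀ g h : S, g ≠ 1 → ProdConj N g h := by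
  classical
  have h1 : ∀ p : ConjClasses S × ConjClasses S, ∃ N : ℕ,
      Quotient.out p.1 ≠ 1 → ProdConj N (Quotient.out p.1) (Quotient.out p.2) := by
    intro p
    by_cases h : Quotient.out p.1 = 1
    · exact ⟨0, fun h' => absurd h h'⟩
    · obtain ⟨N, hN⟩ := exists_prodConj (Quotient.out p.1) (Quotient.out p.2) h
      exact ⟨N, fun _ => hN⟩
  choose N hN using h1
  have := Fintype.ofFinite (ConjClasses S)
  refine ⟨Finset.univ.sup N, fun g h hg => ?_⟩
  have hout : ∀ x : S, IsConj (Quotient.out (ConjClasses.mk x)) x := by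
    intro x
    rw [← ConjClasses.mk_eq_mk_iff_isConj]
    exact Quotient.out_eq _
  have hne : Quotient.out (ConjClasses.mk g) ≠ 1 := by
    intro h0
    have := hout g
    rw [h0, isConj_one_right] at this
    exact hg this
  have h2 := hN (ConjClasses.mk g, ConjClasses.mk h) hne
  exact (h2.mono (Finset.le_sup (f := N) (Finset.mem_univ _))).conj (hout g) (hout h)

end Uniform

end Pool.Agent.Lib.MP_d66af2_al
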