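import Pool.Agent.Lib.MP_d66af2_al.Basic

set_option autoImplicit false

namespace Pool.Agent.Lib.MP_d66af2_al

open Nat

section Rational

variable {G : Type*} [Group G]

/-- In a group with finitely many conjugacy classes and with an element of infinite order there
is an element `r` of infinite order which is conjugate to `r ^ M` for arbitrarily divisible
`M ≥ 1`. -/
theorem exists_divisible [Finite (ConjClasses G)] (g : G) (hg : ∀ n : ℕ, 0 < n → g ^ n ≠ 1) :
    ∃ r : G, (∀ n : ℕ, 0 < n → r ^ n ≠ 1) ∧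
      ∀ N : ℕ, 0 < N → ∃ M : ℕ, 0 < M ∧ IsConj r (r ^ (N * M)) := by
  obtain ⟨c, hc⟩ := Finite.exists_infinite_fiber (fun n : ℕ => ConjClasses.mk (g ^ n !))
  rw [Set.infinite_coe_iff] at hc
  obtain ⟨m, hm⟩ := hc.nonempty
  refine ⟨g ^ m !, ?_, ?_⟩
  · intro n hn
    rw [← pow_mul]
    exact hg _ (Nat.mul_pos (Nat.factorial_pos m) hn)
  · intro N hN
    obtain ⟨n, hn, hn2⟩ := hc.exists_gt (N * m !)
    have hdvd : m ! * N ∣ n ! := by
      have h1 : 0 < m ! * N := Nat.mul_pos (Nat.factorial_pos m) hN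
      exact Nat.dvd_factorial h1 (by rw [mul_comm]; exact hn2.le)
    obtain ⟨q, hq⟩ := hdvd
    have hq0 : 0 < q := by
      rcases Nat.eq_zero_or_pos q with h | h
      · rw [h, mul_zero] at hq
        exact absurd hq (Nat.factorial_ne_zero n)
      · exact h
    refine ⟨q, hq0, ?_⟩
    rw [← pow_mul, ← mul_assoc, ← hq, ← ConjClasses.mk_eq_mk_iff_isConj]
    have e1 : ConjClasses.mk (g ^ m !) = c := hm
    have e2 : ConjClasses.mk (g ^ n !) = c := hn
    rw [e1, e2]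

/-- The chain of roots. -/
theorem exists_chain (r : G) (hr : ∀ N : ℕ, 0 < N → ∃ M : ℕ, 0 < M ∧ IsConj r (r ^ (N * M))) :
    ∃ a : ℕ → G, a 0 = r ∧ ∀ n, a (n + 1) ^ (n + 1) = a n := by
  let P : G → Prop := fun x => ∃ s, IsConj r s ∧ ∃ k : ℕ, s ^ k = x
  have hP : ∀ (x : {x : G // P x}) (N : ℕ), ∃ y : {y : G // P y}, (y : G) ^ (N + 1) = x := by
    rintro ⟨x, s, hs, k, rfl⟩ N
    obtain ⟨M, hM, hc⟩ := hr (N + 1) (Nat.succ_pos N)
    rw [isConj_iff] at hc
    obtain ⟨t, ht⟩ := hc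
    rw [isConj_iff] at hs
    obtain ⟨c, rfl⟩ := hs
    have h1 : (t⁻¹ * r * t) ^ ((N + 1) * M) = r := by
      have : t⁻¹ * r * t = t⁻¹ * r * (t⁻¹)⁻¹ := by rw [inv_inv]
      rw [this, conj_pow, ← ht]
      group
    have h2 : (c * (t⁻¹ * r * t) * c⁻¹) ^ ((N + 1) * M) = c * r * c⁻¹ := by
      rw [conj_pow, h1]
    refine ⟨⟨(c * (t⁻¹ * r * t) * c⁻¹) ^ (M * k), c * (t⁻¹ * r * t) * c⁻¹, ?_, M * k, rfl⟩, ?_⟩
    · rw [isConj_iff]
      exact ⟨c * t⁻¹, by group⟩
    · show ((c * (t⁻¹ * r * t) * c⁻¹) ^ (M * k)) ^ (N + 1) = (c * r * c⁻¹) ^ k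
      rw [← h2, ← pow_mul, ← pow_mul]
      congr 1
      ring
  choose f hf using hP
  let b : ℕ → {x : G // P x} := fun n => Nat.rec ⟨r, r, IsConj.refl r, 1, pow_one r⟩
    (fun n x => f x n) n
  refine ⟨fun n => (b n).1, rfl, fun n => ?_⟩
  exact hf (b n) n

theorem chain_pow (a : ℕ → G) (ha : ∀ n, a (n + 1) ^ (n + 1) = a n) (n k : ℕ) :
    ∃ c : ℕ, n ! * c = (n + k)! ∧ a (n + k) ^ c = a n := by
  induction k with
  | zero => exact ⟨1, by simp, by simp⟩
  | succ k ih =>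
    obtain ⟨c, h1, h2⟩ := ih
    refine ⟨(n + k + 1) * c, ?_, ?_⟩
    · rw [← add_assoc, Nat.factorial_succ, ← h1]; ring
    · rw [← add_assoc, pow_mul, ha, h2]

/-- The graph of the homomorphism from the rationals given by a chain of roots. -/
def ratRel (a : ℕ → G) (q : ℚ) (x : G) : Prop :=
  ∃ (n : ℕ) (z : ℤ), (z : ℚ) = q * (n ! : ℚ) ∧ x = a n ^ z

theorem ratRel_mono (a : ℕ → G) (ha : ∀ n, a (n + 1) ^ (n + 1) = a n) {q : ℚ} {n m : ℕ} {z : ℤ}
    (hnm : n ≤ m) (hz : (z : ℚ) = q * (n ! : ℚ)) :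
    ∃ w : ℤ, (w : ℚ) = q * (m ! : ℚ) ∧ a m ^ w = a n ^ z := by
  obtain ⟨k, rfl⟩ := Nat.exists_eq_add_of_le hnm
  obtain ⟨c, h1, h2⟩ := chain_pow a ha n k
  refine ⟨c * z, ?_, ?_⟩
  · rw [← h1]
    push_cast
    rw [hz]
    ring
  · rw [zpow_mul, zpow_natCast, h2]

theorem ratRel_unique (a : ℕ → G) (ha : ∀ n, a (n + 1) ^ (n + 1) = a n) {q : ℚ} {x y : G}
    (hx : ratRel a q x) (hy : ratRel a q y) : x = y := by
  obtain ⟨n, z, hz, rfl⟩ := hx
  obtain ⟨m, w, hw, rfl⟩ := hy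
  obtain ⟨z', hz', e1⟩ := ratRel_mono a ha (le_max_left n m) hz
  obtain ⟨w', hw', e2⟩ := ratRel_mono a ha (le_max_right n m) hw
  have : z' = w' := by exact_mod_cast hz'.trans hw'.symm
  rw [← e1, ← e2, this]

theorem ratRel_add (a : ℕ → G) (ha : ∀ n, a (n + 1) ^ (n + 1) = a n) {p q : ℚ} {x y : G}
    (hx : ratRel a p x) (hy : ratRel a q y) : ratRel a (p + q) (x * y) := by
  obtain ⟨n, z, hz, rfl⟩ := hx
  obtain ⟨m, w, hw, rfl⟩ := hy
  obtain ⟨z', hz', e1⟩ := ratRel_mono a ha (le_max_left n m) hz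
  obtain ⟨w', hw', e2⟩ := ratRel_mono a ha (le_max_right n m) hw
  refine ⟨max n m, z' + w', ?_, ?_⟩
  · push_cast
    rw [hz', hw']
    ring
  · rw [zpow_add, e1, e2]

theorem ratRel_total (a : ℕ → G) (q : ℚ) : ∃ x, ratRel a q x := by
  have h1 : q.den ∣ (q.den)! := Nat.dvd_factorial q.den_pos le_rfl
  obtain ⟨c, hc⟩ := h1
  refine ⟨_, q.den, q.num * c, ?_, rfl⟩
  rw [hc]
  push_cast
  rw [← mul_assoc, Rat.mul_den_eq_num]

/-- A group with finitely many conjugacy classes and with an element of infinite order contains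
a copy of the additive group of the rationals. -/
theorem exists_rat_embedding [Finite (ConjClasses G)] (g : G)
    (hg : ∀ n : ℕ, 0 < n → g ^ n ≠ 1) :
    ∃ f : Multiplicative ℚ →* G, Function.Injective f := by
  obtain ⟨r, hr, hdiv⟩ := exists_divisible g hg
  obtain ⟨a, ha0, ha⟩ := exists_chain r hdiv
  choose F hF using ratRel_total a
  refine ⟨MonoidHom.mk' (fun q => F q.toAdd) (fun p q => ?_), ?_⟩
  · exact ratRel_unique a ha (hF _) (ratRel_add a ha (hF _) (hF _))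
  · rw [injective_iff_map_eq_one]
    intro q hq
    have h1 : F q.toAdd = 1 := hq
    obtain ⟨n, z, hz, hx⟩ := hF q.toAdd
    rw [h1] at hx
    by_contra hne
    have hq0 : q.toAdd ≠ 0 := fun h => hne (by rw [← ofAdd_toAdd q, h, ofAdd_zero])
    have hz0 : z ≠ 0 := by
      rintro rfl
      have h3 : (n ! : ℚ) ≠ 0 := by exact_mod_cast Nat.factorial_ne_zero n
      rcases mul_eq_zero.1 (hz.symm.trans Int.cast_zero) with h | h
      · exact hq0 h
      · exact h3 h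
    obtain ⟨c, hc1, hc2⟩ := chain_pow a ha 0 n
    rw [zero_add, ha0] at hc2
    have h4 : a n ^ z.natAbs = 1 := by
      rcases Int.natAbs_eq z with h | h
      · rw [← zpow_natCast, ← h]; exact hx.symm
      · have : (z.natAbs : ℤ) = -z := by omega
        rw [← zpow_natCast, this, zpow_neg, ← hx, inv_one]
    have h5 : r ^ z.natAbs = 1 := by
      rw [← hc2, ← pow_mul, mul_comm, pow_mul, h4, one_pow]
    exact hr _ (Int.natAbs_pos.2 hz0) h5

/-- A torsion group with finitely many conjugacy classes has finite exponent. -/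
theorem exponent_ne_zero_of_torsion [Finite (ConjClasses G)]
    (h : ∀ g : G, ∃ n : ℕ, 0 < n ∧ g ^ n = 1) : ∃ e : ℕ, 0 < e ∧ ∀ g : G, g ^ e = 1 := by
  classical
  choose n hn0 hn using h
  have := Fintype.ofFinite (ConjClasses G)
  refine ⟨∏ c : ConjClasses G, n (Quotient.out c), Finset.prod_pos (fun c _ => hn0 _), ?_⟩
  intro g
  have h1 : IsConj (Quotient.out (ConjClasses.mk g)) g := by
    rw [← ConjClasses.mk_eq_mk_iff_isConj]
    exact Quotient.out_eq _
  rw [isConj_iff] at h1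
  obtain ⟨c, hc⟩ := h1
  have h2 : n (Quotient.out (ConjClasses.mk g)) ∣ ∏ c : ConjClasses G, n (Quotient.out c) :=
    Finset.dvd_prod_of_mem _ (Finset.mem_univ _)
  obtain ⟨m, hm⟩ := h2
  have h3 : g ^ n (Quotient.out (ConjClasses.mk g)) = 1 := by
    have h4 := hn (Quotient.out (ConjClasses.mk g))
    generalize hk : n (Quotient.out (ConjClasses.mk g)) = k at h4 ⊢
    rw [← hc, conj_pow, h4]
    group
  rw [hm, pow_mul, h3, one_pow]

end Rational

end Pool.Agent.Lib.MP_d66af2_al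

namespace Pool.Agent.Lib.MP_d66af2_al

/-- Every quasimorphism on a group with finitely many conjugacy classes is bounded. -/
theorem quasimorphism_bounded {G : Type*} [Group G] [Finite (ConjClasses G)] (φ : G → ℝ) (D : ℝ)
    (hφ : ∀ g h : G, |φ (g * h) - φ g - φ h| ≤ D) : ∃ B : ℝ, ∀ g : G, |φ g| ≤ B := by
  classical
  obtain ⟨C, hC⟩ := (Set.finite_range (fun c : ConjClasses G => |φ (Quotient.out c)|)).bddAbove
  refine ⟨4 * D + C, fun h => ?_⟩
  have h1 : IsConj (Quotient.out (ConjClasses.mk h)) h := by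
    rw [← ConjClasses.mk_eq_mk_iff_isConj]
    exact Quotient.out_eq _
  have hC' : |φ (Quotient.out (ConjClasses.mk h))| ≤ C := hC ⟨ConjClasses.mk h, rfl⟩
  rw [isConj_iff] at h1
  obtain ⟨t, ht⟩ := h1
  generalize Quotient.out (ConjClasses.mk h) = g at ht hC'
  have q1 := hφ (t * g) t⁻¹
  have q2 := hφ t g
  have q3 := hφ t t⁻¹
  have q4 := hφ 1 1
  rw [ht] at q1
  rw [mul_inv_cancel] at q3
  rw [mul_one] at q4
  rw [abs_le] at q1 q2 q3 q4 hC' ⊢
  constructor <;> linarith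

end Pool.Agent.Lib.MP_d66af2_al
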