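import Pool.Agent.Lib.MP_d66af2_al.Basic

set_option autoImplicit false

namespace Pool.Agent.Lib.MP_d66af2_al

open Filter Topology

section Action

variable {G : Type*} [Group G] {X : Type*} [PseudoMetricSpace X] [MulAction G X]
  [IsIsometricSMul G X]

theorem dist_smul_inv (x : X) (g : G) : dist x (g⁻¹ • x) = dist x (g • x) := by
  rw [← dist_smul g x (g⁻¹ • x), smul_inv_smul, dist_comm]

theorem dist_mul_le (x : X) (g h : G) :
    dist x ((g * h) • x) ≤ dist x (g • x) + dist x (h • x) := by
  calc dist x ((g * h) • x) ≤ dist x (g • x) + dist (g • x) ((g * h) • x) := dist_triangle _ _ _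
    _ = dist x (g • x) + dist x (h • x) := by rw [mul_smul, dist_smul]

theorem subadditive_dist (x : X) (g : G) : Subadditive (fun n : ℕ => dist x (g ^ n • x)) := by
  intro m n
  show dist x (g ^ (m + n) • x) ≤ _
  rw [pow_add]
  exact dist_mul_le x (g ^ m) (g ^ n)

omit [IsIsometricSMul G X] in
theorem bddBelow_dist (x : X) (g : G) :
    BddBelow (Set.range (fun n : ℕ => dist x (g ^ n • x) / n)) :=
  ⟨0, by rintro _ ⟨n, rfl⟩; positivity⟩

/-- In a group with finitely many conjugacy classes all stable translation lengths vanish, for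
every isometric action on a pseudo-metric space. -/
theorem tendsto_translation [Finite (ConjClasses G)] (x : X) (g : G) :
    Tendsto (fun n : ℕ => dist x (g ^ n • x) / n) atTop (𝓝 0) := by
  have hs := subadditive_dist x g
  have hlim := hs.tendsto_lim (bddBelow_dist x g)
  obtain ⟨i, j, hi, hij, -, hconj⟩ := exists_isConj_pow g
  rw [isConj_iff] at hconj
  obtain ⟨t, ht⟩ := hconj
  have hj : 1 ≤ j := hi.trans hij.le
  -- scaled limits
  have hscale : ∀ k : ℕ, 1 ≤ k →
      Tendsto (fun n : ℕ => dist x (g ^ (k * n) • x) / n) atTop (𝓝 (k * hs.lim)) := by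
    intro k hk
    have h1 : Tendsto (fun n : ℕ => k * n) atTop atTop :=
      tendsto_id.const_mul_atTop' (by omega)
    have h2 := (hlim.comp h1).const_mul (k : ℝ)
    refine h2.congr' ?_
    filter_upwards [eventually_gt_atTop 0] with n hn
    have hk' : (k : ℝ) ≠ 0 := by positivity
    have hn' : (n : ℝ) ≠ 0 := by positivity
    simp only [Function.comp]
    push_cast
    field_simp
  have hi' := hscale i hi
  have hj' := hscale j hj
  have hdiff : Tendsto (fun n : ℕ => dist x (g ^ (j * n) • x) / n - dist x (g ^ (i * n) • x) / n)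
      atTop (𝓝 0) := by
    have hC : Tendsto (fun n : ℕ => (2 * dist x (t • x)) / (n : ℝ)) atTop (𝓝 0) :=
      tendsto_const_div_atTop_nhds_zero_nat _
    refine squeeze_zero_norm (fun n => ?_) hC
    rw [← sub_div, norm_div, Real.norm_natCast, Real.norm_eq_abs]
    refine div_le_div_of_nonneg_right ?_ (Nat.cast_nonneg n)
    have e1 : g ^ (j * n) = t * g ^ (i * n) * t⁻¹ := by
      rw [pow_mul, ← ht, pow_mul, conj_pow]
    have h1 : dist x (g ^ (j * n) • x) ≤
        dist x (t • x) + dist x (g ^ (i * n) • x) + dist x (t • x) := by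
      rw [e1]
      refine (dist_mul_le x _ _).trans ?_
      rw [dist_smul_inv]
      exact add_le_add (dist_mul_le x _ _) le_rfl
    have h2 : dist x (g ^ (i * n) • x) ≤
        dist x (t • x) + dist x (g ^ (j * n) • x) + dist x (t • x) := by
      have e2 : g ^ (i * n) = t⁻¹ * g ^ (j * n) * t := by
        rw [e1]; group
      rw [e2]
      refine (dist_mul_le x _ _).trans ?_
      refine add_le_add ?_ le_rfl
      refine (dist_mul_le x _ _).trans ?_
      rw [dist_smul_inv]
    rw [abs_le]
    constructor <;> linarith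
  have h3 := tendsto_nhds_unique hdiff (hj'.sub hi')
  have h4 : ((j : ℝ) - i) * hs.lim = 0 := by linarith
  have h5 : ((j : ℝ) - i) ≠ 0 := by
    have : (i : ℝ) < j := by exact_mod_cast hij
    linarith
  have h6 : hs.lim = 0 := (mul_eq_zero.1 h4).resolve_left h5
  rw [h6] at hlim
  exact hlim

/-- The four point condition: the space is `0`-hyperbolic (every metric tree, simplicial or real,
satisfies it). -/
def FourPoint (X : Type*) [PseudoMetricSpace X] : Prop :=
  ∀ x y z w : X, dist x y + dist z w ≤ max (dist x z + dist y w) (dist x w + dist y z)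

/-- In a `0`-hyperbolic space, vanishing translation length gives `d(x, g²x) ≤ d(x, gx)`. -/
theorem dist_sq_le (hX : FourPoint X) (x : X) (g : G)
    (h0 : Tendsto (fun n : ℕ => dist x (g ^ n • x) / n) atTop (𝓝 0)) :
    dist x (g ^ 2 • x) ≤ dist x (g • x) := by
  by_contra hcon
  push Not at hcon
  set L : ℕ → ℝ := fun n => dist x (g ^ n • x) with hL
  set δ : ℝ := L 2 - L 1 with hδ
  have hL1 : L 1 = dist x (g • x) := by simp [hL]
  have hδ0 : 0 < δ := by
    rw [hδ, hL1]; simp only [hL]; linarith
  have key : ∀ n : ℕ, L (n + 1) + δ ≤ L (n + 2) ∧ L 1 ≤ L (n + 1) := by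
    intro n
    induction n with
    | zero => exact ⟨by simp only [hδ]; linarith, le_rfl⟩
    | succ n ih =>
      obtain ⟨ih1, ih2⟩ := ih
      refine ⟨?_, by linarith⟩
      -- the four points `x, g^(n+2) x, g x, g^(n+3) x`
      have h := hX x (g ^ (n + 2) • x) (g • x) (g ^ (n + 3) • x)
      have e1 : dist (g • x) (g ^ (n + 3) • x) = L (n + 2) := by
        rw [show g ^ (n + 3) = g * g ^ (n + 2) by rw [← pow_succ'], mul_smul, dist_smul]
      have e2 : dist (g ^ (n + 2) • x) (g ^ (n + 3) • x) = L 1 := by
        rw [show g ^ (n + 3) = g ^ (n + 2) * g by rw [← pow_succ], mul_smul, dist_smul, hL1]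
      have e3 : dist (g ^ (n + 2) • x) (g • x) = L (n + 1) := by
        rw [show g ^ (n + 2) = g * g ^ (n + 1) by rw [← pow_succ'], mul_smul, dist_smul,
          dist_comm]
      rw [e1, e2, e3, ← hL1] at h
      have h' : L (n + 2) + L (n + 2) ≤ max (L 1 + L 1) (L (n + 3) + L (n + 1)) := h
      rcases le_max_iff.1 h' with h1 | h1
      · linarith
      · show L (n + 1 + 1) + δ ≤ L (n + 1 + 2)
        have : L (n + 1 + 1) = L (n + 2) := rfl
        have : L (n + 1 + 2) = L (n + 3) := rfl
        linarith
  have grow : ∀ n : ℕ, (n : ℝ) * δ ≤ L (n + 1) := by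
    intro n
    induction n with
    | zero => simp only [Nat.cast_zero, zero_mul]; exact dist_nonneg
    | succ n ih =>
      have := (key n).1
      push_cast
      have e : L (n + 1 + 1) = L (n + 2) := rfl
      rw [e]
      linarith
  have h1 : Tendsto (fun n : ℕ => L (n + 1) / ((n + 1 : ℕ) : ℝ)) atTop (𝓝 0) :=
    h0.comp (tendsto_add_atTop_nat 1)
  have h2 : ∀ᶠ n : ℕ in atTop, L (n + 1) / ((n + 1 : ℕ) : ℝ) < δ / 2 :=
    h1.eventually_lt_const (by linarith)
  obtain ⟨n, hn1, hn2⟩ := (h2.and (eventually_ge_atTop 1)).exists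
  have hpos : (0 : ℝ) < ((n + 1 : ℕ) : ℝ) := by positivity
  rw [div_lt_iff₀ hpos] at hn1
  have h3 := grow n
  have hn3 : (1 : ℝ) ≤ n := by exact_mod_cast hn2
  push_cast at hn1
  nlinarith

/-- Gromov product inequality in the form used below. -/
theorem gromov (hX : FourPoint X) (o a b c : X) :
    min (dist o a + dist o b - dist a b) (dist o b + dist o c - dist b c)
      ≤ dist o a + dist o c - dist a c := by
  have h := hX a c o b
  rw [min_le_iff]
  rcases le_max_iff.1 h with h1 | h1
  · right
    have e1 : dist a o = dist o a := dist_comm _ _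
    have e2 : dist c b = dist b c := dist_comm _ _
    linarith
  · left
    have e1 : dist c o = dist o c := dist_comm _ _
    linarith

/-- If no element moves `x` further under its square, the displacement of `x` is ultrametric. -/
theorem ultrametric (hX : FourPoint X) (x : X)
    (hsq : ∀ g : G, dist x (g ^ 2 • x) ≤ dist x (g • x)) (g h : G) :
    dist x ((g * h) • x) ≤ max (dist x (g • x)) (dist x (h • x)) := by
  by_contra hcon
  push Not at hcon
  rw [max_lt_iff] at hcon
  obtain ⟨h1, h2⟩ := hcon
  have hself : ∀ k : G, dist (k⁻¹ • x) (k • x) = dist x (k ^ 2 • x) := by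
    intro k
    rw [← dist_smul k (k⁻¹ • x) (k • x), smul_inv_smul, smul_smul, pow_two]
  -- the six points
  have a1 := gromov hX x (g⁻¹ • x) (g • x) (h • x)
  have a2 := gromov hX x (g • x) ((g * h) • x) (h • x)
  have a3 := gromov hX x ((g * h) • x) ((g * h)⁻¹ • x) (h • x)
  have a4 := gromov hX x ((g * h)⁻¹ • x) (h⁻¹ • x) (h • x)
  have hself' : ∀ k : G, dist (k • x) (k⁻¹ • x) = dist x (k ^ 2 • x) := by
    intro k
    rw [dist_comm, hself]
  rw [hself] at a1 a4
  rw [hself'] at a3
  have b1 : dist (g⁻¹ • x) (h • x) = dist x ((g * h) • x) := by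
    rw [← dist_smul g (g⁻¹ • x) (h • x), smul_inv_smul, smul_smul]
  have b2 : dist (g • x) ((g * h) • x) = dist x (h • x) := by
    rw [mul_smul, dist_smul]
  have b3 : dist ((g * h)⁻¹ • x) (h⁻¹ • x) = dist x (g • x) := by
    rw [mul_inv_rev, mul_smul, dist_smul, dist_comm, dist_smul_inv]
  rw [dist_smul_inv, b1] at a1
  rw [b2] at a2
  rw [dist_smul_inv] at a3
  rw [dist_smul_inv, dist_smul_inv, b3] at a4
  have c1 := hsq g
  have c2 := hsq h
  have c3 := hsq (g * h)
  have p1 : (0 : ℝ) ≤ dist x (g • x) := dist_nonneg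
  have p2 : (0 : ℝ) ≤ dist x (h • x) := dist_nonneg
  set lg := dist x (g • x)
  set lh := dist x (h • x)
  set lgh := dist x ((g * h) • x)
  rcases min_le_iff.1 a1 with q | q
  · linarith
  · rcases min_le_iff.1 a2 with r | r
    · linarith
    · rcases min_le_iff.1 a3 with s | s
      · linarith
      · rcases min_le_iff.1 a4 with u | u
        · linarith
        · linarith

/-- In a group with finitely many conjugacy classes acting by isometries on a `0`-hyperbolic
space, the elements moving a given point by at most `r` form a subgroup. -/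
theorem ball_subgroup [Finite (ConjClasses G)] (hX : FourPoint X) (x : X) (g h : G) :
    dist x ((g * h) • x) ≤ max (dist x (g • x)) (dist x (h • x)) :=
  ultrametric hX x (fun k => dist_sq_le hX x k (tendsto_translation x k)) g h

/-- A finitely generated group with finitely many conjugacy classes acting by isometries on a
`0`-hyperbolic space has bounded orbits. -/
theorem bounded_orbit [Finite (ConjClasses G)] [hG : Group.FG G] (hX : FourPoint X) (x : X) :
    ∃ C : ℝ, ∀ g : G, dist x (g • x) ≤ C := by
  obtain ⟨S, hS, hfin⟩ := Group.fg_iff.1 hG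
  obtain ⟨C, hC⟩ := (hfin.image (fun g : G => dist x (g • x))).bddAbove
  refine ⟨max C 0, fun g => ?_⟩
  have hg : g ∈ Subgroup.closure S := by rw [hS]; trivial
  induction hg using Subgroup.closure_induction with
  | mem g hg => exact (hC ⟨g, hg, rfl⟩).trans (le_max_left _ _)
  | one => rw [one_smul, dist_self]; exact le_max_right _ _
  | mul g h _ _ h1 h2 => exact (ball_subgroup hX x g h).trans (max_le h1 h2)
  | inv g _ h1 => rwa [dist_smul_inv]

end Action

end Pool.Agent.Lib.MP_d66af2_al
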